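import Mathlib

/-!
# Polytopes, face complexes, skeleta, strong and weak ambiguity

The definitions used in the statement of `Pool.Agent.Results.MP_745574_co.StrongNotWeak.result`.
-/

open Set

namespace Pool.Agent.Lib.MP_745574_co

/-! ## Definitions -/

/-- Euclidean `n`-space. -/
abbrev E (n : ℕ) : Type := EuclideanSpace ℝ (Fin n)

/-- A convex polytope: the convex hull of a finite set (the empty set is allowed). -/
def IsPolytope {n : ℕ} (P : Set (E n)) : Prop :=
  ∃ S : Finset (E n), P = convexHull ℝ (S : Set (E n))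

open Classical in
/-- The dimension of a convex set, with the convention `dim ∅ = -1`. -/
noncomputable def dim {n : ℕ} (P : Set (E n)) : ℤ :=
  if P = ∅ then -1 else (Module.finrank ℝ (vectorSpan ℝ P) : ℤ)

/-- A `d`-polytope: a convex polytope of dimension `d`. -/
def IsDPolytope (d : ℕ) {n : ℕ} (P : Set (E n)) : Prop :=
  IsPolytope P ∧ dim P = d

/-- The complex `𝒞(P)` of all faces of `P`: the empty face, `P` itself and all intersections of `P`
with supporting hyperplanes (the exposed subsets of `P`). -/
def faceComplex {n : ℕ} (P : Set (E n)) : Set (Set (E n)) :=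
  {F | IsExposed ℝ P F}

/-- The `k`-skeleton: the faces of dimension at most `k`. -/
def skel (k : ℕ) {n : ℕ} (P : Set (E n)) : Set (Set (E n)) :=
  {F | F ∈ faceComplex P ∧ dim F ≤ k}

/-- A finite polyhedral complex: a finite family of polytopes, closed under taking faces, such that
the intersection of any two members is a face of both. -/
structure IsComplex {n : ℕ} (C : Set (Set (E n))) : Prop where
  finite : C.Finite
  polytope : ∀ F ∈ C, IsPolytope F
  face_mem : ∀ F ∈ C, ∀ G ∈ faceComplex F, G ∈ C
  inter : ∀ F ∈ C, ∀ G ∈ C, F ∩ G ∈ faceComplex F ∧ F ∩ G ∈ faceComplex G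

/-- A `k`-complex: a finite polyhedral complex of dimension `k`. -/
def IsKComplex (k : ℕ) {n : ℕ} (C : Set (Set (E n))) : Prop :=
  IsComplex C ∧ (∀ F ∈ C, dim F ≤ k) ∧ ∃ F ∈ C, dim F = k

/-- `C` is strongly `d`-ambiguous (for a `k`-complex `C`). Combinatorial equivalences are the
order isomorphisms for inclusion. -/
def StronglyAmbiguous (k d : ℕ) {n : ℕ} (C : Set (Set (E n))) : Prop :=
  ∃ (n₁ n₂ : ℕ) (P : Set (E n₁)) (P' : Set (E n₂)),
    IsDPolytope d P ∧ IsDPolytope d P' ∧
    ¬ Nonempty (faceComplex P ≃o faceComplex P') ∧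
    Nonempty (C ≃o skel k P) ∧ Nonempty (C ≃o skel k P') ∧ Nonempty (skel k P ≃o skel k P')

/-- `C` is weakly `d`-ambiguous (for a `k`-complex `C`): there are a `d`-polytope `P` and
combinatorial equivalences `φ ψ : C → skel_k P` such that `φ ψ⁻¹` is not the restriction of a
combinatorial self-equivalence of the complex of all faces of `P`. -/
def WeaklyAmbiguous (k d : ℕ) {n : ℕ} (C : Set (Set (E n))) : Prop :=
  ∃ (m : ℕ) (P : Set (E m)), IsDPolytope d P ∧
    ∃ φ ψ : C ≃o skel k P, ¬ ∃ Φ : faceComplex P ≃o faceComplex P,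
      ∀ F : skel k P, (Φ ⟨F.1, F.2.1⟩ : Set (E m)) = (φ (ψ.symm F) : Set (E m))

end Pool.Agent.Lib.MP_745574_co
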