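import Mathlib
import Pool.Agent.Lib.MP_745574_co.Defs

/-!
# A strongly ambiguous complex that is not weakly ambiguous

We exhibit a graph (the common 1-skeleton of two explicit, combinatorially different 4-polytopes
with 8 vertices) which is strongly 4-ambiguous and not weakly 4-ambiguous. The point is that the
graph has no nontrivial automorphism, so that any two combinatorial equivalences of it with the
1-skeleton of a 4-polytope coincide. The face lattices are controlled by integer certificates: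
a supporting hyperplane for each vertex, each edge and one triangle, and an affine dependence for
each non-edge and one non-face.
-/

open Set

namespace Pool.Agent.Lib.MP_745574_co

/-! ## Faces of a convex hull -/

theorem exposed_eq {n : ℕ} {S F : Set (E n)} (h : IsExposed ℝ (convexHull ℝ S) F) :
    F = convexHull ℝ (S ∩ F) := by
  apply Subset.antisymm
  · intro x hx
    obtain ⟨l, hl⟩ := h ⟨x, hx⟩
    have hx' := hx
    rw [hl] at hx'
    obtain ⟨hxP, hmax⟩ := hx'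
    obtain ⟨ι, _, w, z, hw0, hw1, hz, hxz⟩ := mem_convexHull_iff_exists_fintype.1 hxP
    have hle : ∀ i, l (z i) ≤ l x := fun i => hmax _ (subset_convexHull ℝ S (hz i))
    have hsum : ∑ i, w i * (l x - l (z i)) = 0 := by
      have : l x = ∑ i, w i * l (z i) := by
        conv_lhs => rw [← hxz]
        simp [map_sum]
      simp only [mul_sub, Finset.sum_sub_distrib, ← Finset.sum_mul, hw1, one_mul]
      linarith
    have hzero : ∀ i, w i * (l x - l (z i)) = 0 := by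
      intro i
      have := (Finset.sum_eq_zero_iff_of_nonneg (s := Finset.univ)
        (f := fun i => w i * (l x - l (z i)))
        (fun i _ => mul_nonneg (hw0 i) (sub_nonneg.2 (hle i)))).1 hsum i (Finset.mem_univ i)
      exact this
    have hzF : ∀ i, w i ≠ 0 → z i ∈ F := by
      intro i hi
      have h0 : l x = l (z i) := by
        rcases mul_eq_zero.1 (hzero i) with h | h
        · exact absurd h hi
        · linarith
      rw [hl]
      refine ⟨subset_convexHull ℝ S (hz i), fun y hy => ?_⟩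
      rw [← h0]; exact hmax y hy
    classical
    rw [← hxz, ← Finset.sum_filter_ne_zero]
    have hf : (Finset.univ.filter (fun i => w i • z i ≠ 0)) ⊆
        (Finset.univ.filter (fun i => w i ≠ 0)) := by
      intro i hi
      simp only [Finset.mem_filter, Finset.mem_univ, true_and] at hi ⊢
      intro h0; apply hi; rw [h0, zero_smul]
    have e1 : ∑ i ∈ Finset.univ.filter (fun i => w i • z i ≠ 0), w i • z i
        = ∑ i ∈ Finset.univ.filter (fun i => w i ≠ 0), w i • z i := by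
      apply Finset.sum_subset hf
      intro i _ hi
      simp only [Finset.mem_filter, Finset.mem_univ, true_and, not_not] at hi
      exact hi
    rw [e1]
    refine (convex_convexHull ℝ (S ∩ F)).sum_mem (fun i _ => hw0 i) ?_ ?_
    · rw [Finset.sum_filter_ne_zero]; exact hw1
    · intro i hi
      simp only [Finset.mem_filter, Finset.mem_univ, true_and] at hi
      exact subset_convexHull ℝ _ ⟨hz i, hzF i hi⟩
  · exact convexHull_min inter_subset_right (h.convex (convex_convexHull ℝ S))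

/-! ## Order isomorphisms between families of subsets -/

theorem exists_perm {ι : Type} {K K' : Set (Set ι)} (h0 : ∅ ∈ K) (h0' : ∅ ∈ K')
    (h1 : ∀ i, {i} ∈ K) (h1' : ∀ i, {i} ∈ K') (Φ : K ≃o K') :
    ∃ σ : Equiv.Perm ι, ∀ T : K, (Φ T : Set ι) = σ '' (T : Set ι) := by
  -- an order isomorphism maps the empty set to the empty set
  have key0 : ∀ {K K' : Set (Set ι)} (h0 : ∅ ∈ K) (h0' : ∅ ∈ K') (Φ : K ≃o K'),
      (Φ ⟨∅, h0⟩ : Set ι) = ∅ := by
    intro K K' h0 h0' Φ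
    have : Φ ⟨∅, h0⟩ ≤ ⟨∅, h0'⟩ := by
      rw [← Φ.symm.le_iff_le, Φ.symm_apply_apply]
      exact empty_subset _
    exact subset_empty_iff.1 this
  have key : ∀ {K K' : Set (Set ι)} (h0 : ∅ ∈ K) (h0' : ∅ ∈ K')
      (h1 : ∀ i, {i} ∈ K) (h1' : ∀ i, {i} ∈ K') (Φ : K ≃o K') (i : ι),
      ∃ k, (Φ ⟨{i}, h1 i⟩ : Set ι) = {k} := by
    intro K K' h0 h0' h1 h1' Φ i
    have hne : (Φ ⟨{i}, h1 i⟩ : Set ι).Nonempty := by
      rw [nonempty_iff_ne_empty]
      intro h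
      have h2 : Φ ⟨{i}, h1 i⟩ = Φ ⟨∅, h0⟩ := Subtype.ext (by rw [h, key0 h0 h0' Φ])
      have h3 := congrArg Subtype.val (Φ.injective h2)
      exact absurd h3 (singleton_ne_empty i)
    obtain ⟨k, hk⟩ := hne
    refine ⟨k, ?_⟩
    have hle : (⟨{k}, h1' k⟩ : K') ≤ Φ ⟨{i}, h1 i⟩ := singleton_subset_iff.2 hk
    have hle2 : Φ.symm ⟨{k}, h1' k⟩ ≤ ⟨{i}, h1 i⟩ := by
      rw [← Φ.le_iff_le, Φ.apply_symm_apply]; exact hle
    have hle3 : (Φ.symm ⟨{k}, h1' k⟩ : Set ι) ⊆ {i} := hle2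
    have hne2 : (Φ.symm ⟨{k}, h1' k⟩ : Set ι) ≠ ∅ := by
      intro h
      have h2 : Φ.symm ⟨{k}, h1' k⟩ = Φ.symm ⟨∅, h0'⟩ :=
        Subtype.ext (by rw [h, key0 h0' h0 Φ.symm])
      have h3 := congrArg Subtype.val (Φ.symm.injective h2)
      exact absurd h3 (singleton_ne_empty k)
    have h4 : (Φ.symm ⟨{k}, h1' k⟩ : Set ι) = {i} := by
      rcases subset_singleton_iff_eq.1 hle3 with h | h
      · exact absurd h hne2
      · exact h
    have h5 : Φ.symm ⟨{k}, h1' k⟩ = ⟨{i}, h1 i⟩ := Subtype.ext h4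
    rw [← h5, Φ.apply_symm_apply]
  choose f hf using key h0 h0' h1 h1' Φ
  choose g hg using key h0' h0 h1' h1 Φ.symm
  have hgf : ∀ i, g (f i) = i := by
    intro i
    have h2 : Φ ⟨{i}, h1 i⟩ = ⟨{f i}, h1' (f i)⟩ := Subtype.ext (hf i)
    have h3 := hg (f i)
    rw [← h2, Φ.symm_apply_apply] at h3
    exact (singleton_injective h3).symm
  have hfg : ∀ i, f (g i) = i := by
    intro i
    have h2 : Φ.symm ⟨{i}, h1' i⟩ = ⟨{g i}, h1 (g i)⟩ := Subtype.ext (hg i)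
    have h3 := hf (g i)
    rw [← h2, Φ.apply_symm_apply] at h3
    exact (singleton_injective h3).symm
  refine ⟨⟨f, g, hgf, hfg⟩, fun T => ?_⟩
  ext k
  have e1 : k ∈ (Φ T : Set ι) ↔ (⟨{k}, h1' k⟩ : K') ≤ Φ T := singleton_subset_iff.symm
  have e2 : (⟨{k}, h1' k⟩ : K') ≤ Φ T ↔ Φ.symm ⟨{k}, h1' k⟩ ≤ T := by
    rw [← Φ.symm.le_iff_le, Φ.symm_apply_apply]
  have e3 : Φ.symm ⟨{k}, h1' k⟩ = ⟨{g k}, h1 (g k)⟩ := Subtype.ext (hg k)
  have e4 : (⟨{g k}, h1 (g k)⟩ : K) ≤ T ↔ g k ∈ (T : Set ι) := singleton_subset_iff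
  rw [e1, e2, e3, e4]
  constructor
  · intro h
    exact ⟨g k, h, hfg k⟩
  · rintro ⟨i, hi, rfl⟩
    change g (f i) ∈ _
    rw [hgf]; exact hi

/-! ## Faces and vertex sets -/

/-- The indices of the points lying in `F`. -/
def vset {n N : ℕ} (v : Fin N → E n) (F : Set (E n)) : Set (Fin N) := {i | v i ∈ F}

/-- The polytope spanned by the points `v i`. -/
def poly {n N : ℕ} (v : Fin N → E n) : Set (E n) := convexHull ℝ (range v)

theorem face_eq {n N : ℕ} (v : Fin N → E n) {F : Set (E n)} (hF : F ∈ faceComplex (poly v)) :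
    F = convexHull ℝ (v '' vset v F) := by
  have h : v '' vset v F = range v ∩ F := by
    ext x; constructor
    · rintro ⟨i, hi, rfl⟩; exact ⟨⟨i, rfl⟩, hi⟩
    · rintro ⟨⟨i, rfl⟩, hx⟩; exact ⟨i, hx, rfl⟩
  rw [h]
  exact exposed_eq hF

theorem face_le_iff {n N : ℕ} (v : Fin N → E n) {F G : Set (E n)}
    (hF : F ∈ faceComplex (poly v)) (hG : G ∈ faceComplex (poly v)) :
    vset v F ⊆ vset v G ↔ F ⊆ G := by
  constructor
  · intro h
    rw [face_eq v hF, face_eq v hG]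
    exact convexHull_mono (image_mono h)
  · intro h i hi
    exact h hi

theorem vset_injOn {n N : ℕ} (v : Fin N → E n) :
    InjOn (vset v) (faceComplex (poly v)) := by
  intro F hF G hG h
  rw [face_eq v hF, face_eq v hG, h]

/-- A family of faces is order isomorphic to the family of its vertex sets. -/
noncomputable def toSets {n N : ℕ} (v : Fin N → E n) (C : Set (Set (E n)))
    (hC : C ⊆ faceComplex (poly v)) : C ≃o (vset v '' C) where
  toEquiv := Equiv.ofBijective (fun F => ⟨vset v F.1, F.1, F.2, rfl⟩)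
    ⟨fun F G h => Subtype.ext (vset_injOn v (hC F.2) (hC G.2) (congrArg Subtype.val h)),
      fun ⟨_, F, hF, h⟩ => ⟨⟨F, hF⟩, Subtype.ext h⟩⟩
  map_rel_iff' := by
    intro F G
    exact face_le_iff v (hC F.2) (hC G.2)

/-! ## Integer configurations and certificates -/

/-- The point of `ℝ⁴` with the given integer coordinates. -/
def toE (x : Fin 4 → ℤ) : E 4 := WithLp.toLp 2 (fun k => (x k : ℝ))

/-- The integer dot product. -/
def dot (w x : Fin 4 → ℤ) : ℤ := w 0 * x 0 + w 1 * x 1 + w 2 * x 2 + w 3 * x 3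

/-- The configuration of 8 points with the given integer coordinates. -/
def pts (V : Fin 8 → Fin 4 → ℤ) : Fin 8 → E 4 := fun i => toE (V i)

/-- The linear functional given by an integer vector. -/
noncomputable def fn (w : Fin 4 → ℤ) : StrongDual ℝ (E 4) := innerSL ℝ (toE w)

theorem fn_toE (w x : Fin 4 → ℤ) : fn w (toE x) = (dot w x : ℝ) := by
  simp only [fn, toE, dot, innerSL_apply_apply, PiLp.inner_apply, Fin.sum_univ_four]
  simp
  ring

/-- Certificate for a face. -/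
theorem mem_cert (V : Fin 8 → Fin 4 → ℤ) (w : Fin 4 → ℤ) (T : Finset (Fin 8)) (t0 : Fin 8)
    (h1 : ∀ i ∈ T, dot w (V i) = dot w (V t0))
    (h2 : ∀ i, i ∉ T → dot w (V i) < dot w (V t0)) :
    (T : Set (Fin 8)) ∈ vset (pts V) '' faceComplex (poly (pts V)) := by
  have hle : ∀ y ∈ poly (pts V), fn w y ≤ (dot w (V t0) : ℝ) := by
    have : poly (pts V) ⊆ {y | fn w y ≤ (dot w (V t0) : ℝ)} := by
      apply convexHull_min
      · rintro _ ⟨i, rfl⟩
        change fn w (toE (V i)) ≤ _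
        rw [fn_toE]
        by_cases hi : i ∈ T
        · rw [h1 i hi]
        · exact_mod_cast (h2 i hi).le
      · exact convex_halfSpace_le (fn w).isLinear _
    exact this
  have hmem : ∀ i, pts V i ∈ poly (pts V) := fun i => subset_convexHull ℝ _ ⟨i, rfl⟩
  refine ⟨(fn w).toExposed (poly (pts V)), ContinuousLinearMap.toExposed.isExposed, ?_⟩
  ext i
  constructor
  · intro hi
    by_contra hiT
    have h3 : fn w (pts V t0) ≤ fn w (pts V i) := hi.2 _ (hmem t0)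
    change fn w (toE (V t0)) ≤ fn w (toE (V i)) at h3
    rw [fn_toE, fn_toE] at h3
    have h4 : dot w (V t0) ≤ dot w (V i) := by exact_mod_cast h3
    exact absurd (h2 i hiT) (not_lt.2 h4)
  · intro hi
    refine ⟨hmem i, fun y hy => ?_⟩
    have h3 : fn w (pts V i) = (dot w (V t0) : ℝ) := by
      change fn w (toE (V i)) = _
      rw [fn_toE, h1 i hi]
    rw [h3]
    exact hle y hy

/-- Certificate for a non-face. -/
theorem not_mem_cert (V : Fin 8 → Fin 4 → ℤ) (c : Fin 8 → ℤ) (T : Finset (Fin 8)) (t0 : Fin 8)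
    (ht0 : t0 ∈ T) (hc : ∑ i, c i = 0) (hV : ∀ k, ∑ i, c i * V i k = 0)
    (hpos : ∀ i, i ∉ T → 0 ≤ c i) (j : Fin 8) (hj : j ∉ T) (hcj : 0 < c j) :
    (T : Set (Fin 8)) ∉ vset (pts V) '' faceComplex (poly (pts V)) := by
  rintro ⟨F, hF, hT⟩
  have hmem : ∀ i, pts V i ∈ poly (pts V) := fun i => subset_convexHull ℝ _ ⟨i, rfl⟩
  have hiff : ∀ i, pts V i ∈ F ↔ i ∈ T := by
    intro i
    have : i ∈ vset (pts V) F ↔ i ∈ (T : Set (Fin 8)) := by rw [hT]
    exact this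
  obtain ⟨l, hl⟩ := hF ⟨pts V t0, (hiff t0).2 ht0⟩
  have hM : ∀ i ∈ T, l (pts V i) = l (pts V t0) := by
    intro i hi
    have h1 := (hiff i).2 hi
    have h2 := (hiff t0).2 ht0
    rw [hl] at h1 h2
    exact le_antisymm (h2.2 _ (hmem i)) (h1.2 _ (hmem t0))
  have hlt : ∀ i, i ∉ T → l (pts V i) < l (pts V t0) := by
    intro i hi
    by_contra hcon
    push Not at hcon
    apply hi
    rw [← hiff, hl]
    refine ⟨hmem i, fun y hy => ?_⟩
    have h2 := (hiff t0).2 ht0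
    rw [hl] at h2
    exact (h2.2 y hy).trans hcon
  have hzero : ∑ i, (c i : ℝ) • pts V i = 0 := by
    ext k
    have := hV k
    have h' : ((∑ i, c i * V i k : ℤ) : ℝ) = 0 := by rw [this]; simp
    push_cast at h'
    simpa [pts, toE, Finset.sum_apply] using h'
  have hsum : ∑ i, (c i : ℝ) * (l (pts V i) - l (pts V t0)) = 0 := by
    have h1 : l (∑ i, (c i : ℝ) • pts V i) = 0 := by rw [hzero, map_zero]
    rw [map_sum] at h1
    simp only [map_smul, smul_eq_mul] at h1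
    have h2 : (∑ i, (c i : ℝ)) = 0 := by exact_mod_cast hc
    simp only [mul_sub, Finset.sum_sub_distrib, ← Finset.sum_mul, h1, h2, zero_mul, sub_zero]
  have hneg : ∑ i, (c i : ℝ) * (l (pts V i) - l (pts V t0)) < 0 := by
    have : ∑ i, (c i : ℝ) * (l (pts V i) - l (pts V t0)) < ∑ _i : Fin 8, (0 : ℝ) := by
      apply Finset.sum_lt_sum
      · intro i _
        by_cases hi : i ∈ T
        · rw [hM i hi, sub_self, mul_zero]
        · apply mul_nonpos_of_nonneg_of_nonpos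
          · exact_mod_cast hpos i hi
          · linarith [hlt i hi]
      · refine ⟨j, Finset.mem_univ j, ?_⟩
        apply mul_neg_of_pos_of_neg
        · exact_mod_cast hcj
        · linarith [hlt j hj]
    simpa using this
  linarith

/-- The vectors `e_k` in the span of differences. -/
theorem span_cert (V : Fin 8 → Fin 4 → ℤ) (D : Fin 4 → Fin 8 → ℤ) (M : Fin 4 → ℤ)
    (hM : ∀ k, M k ≠ 0) (hD : ∀ k, ∑ i, D k i = 0)
    (hDV : ∀ k q, ∑ i, D k i * V i q = if q = k then M k else 0) :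
    vectorSpan ℝ (range (pts V)) = ⊤ := by
  rw [eq_top_iff]
  have hdiff : ∀ i, pts V i - pts V 0 ∈ vectorSpan ℝ (range (pts V)) := fun i =>
    vsub_mem_vectorSpan ℝ ⟨i, rfl⟩ ⟨0, rfl⟩
  have hbasis : ∀ k, EuclideanSpace.single k (1 : ℝ) ∈ vectorSpan ℝ (range (pts V)) := by
    intro k
    have h1 : ∑ i, (D k i : ℝ) • (pts V i - pts V 0) ∈ vectorSpan ℝ (range (pts V)) :=
      Submodule.sum_mem _ fun i _ => Submodule.smul_mem _ _ (hdiff i)
    have h2 : ∑ i, (D k i : ℝ) • (pts V i - pts V 0) = (M k : ℝ) • EuclideanSpace.single k (1 : ℝ) := by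
      simp only [smul_sub, Finset.sum_sub_distrib, ← Finset.sum_smul]
      have h3 : (∑ i, (D k i : ℝ)) = 0 := by exact_mod_cast hD k
      rw [h3, zero_smul, sub_zero]
      ext q
      have := hDV k q
      have h' : ((∑ i, D k i * V i q : ℤ) : ℝ) = ((if q = k then M k else 0 : ℤ) : ℝ) := by
        rw [this]
      push_cast at h'
      simpa [pts, toE, Finset.sum_apply, Pi.single_apply] using h'
    rw [h2] at h1
    have h4 := Submodule.smul_mem _ ((M k : ℝ)⁻¹) h1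
    rwa [smul_smul, inv_mul_cancel₀ (by exact_mod_cast hM k), one_smul] at h4
  intro x _
  have hx : x = ∑ k, x k • EuclideanSpace.single k (1 : ℝ) := by
    ext q
    simp [Finset.sum_apply, Pi.single_apply]
  rw [hx]
  exact Submodule.sum_mem _ fun k _ => Submodule.smul_mem _ _ (hbasis k)

/-! ## The data -/

def VA : Fin 8 → Fin 4 → ℤ :=
  ![![-1, -1, -1, -1], ![-1, -1, 0, -1], ![1, 1, -1, -1], ![0, 1, 0, 0], ![0, 0, 1, 0], ![1, 1, -1, 1], ![1, 1, 0, -1], ![-1, 1, -1, 0]]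
def WA : Fin 8 → Fin 8 → Fin 4 → ℤ :=
  ![![![0, -1, -1, 0], ![0, -1, 0, 0], ![0, 0, -1, -1], ![0, 0, 0, 0], ![0, 0, 0, 0], ![0, -1, -1, 1], ![0, 0, 0, 0], ![-1, 0, -1, 0]],
    ![![0, -1, 0, 0], ![0, -1, 1, -1], ![0, 0, 0, 0], ![0, 0, 0, 0], ![0, -1, 1, 0], ![0, 0, 0, 0], ![0, 0, 1, -2], ![-2, 1, 1, -1]],
    ![![0, 0, -1, -1], ![0, 0, 0, 0], ![1, 0, -1, -1], ![0, 0, 0, 0], ![0, 0, 0, 0], ![1, 0, -1, 0], ![1, 0, 0, -1], ![-1, 2, -1, -2]],
    ![![0, 0, 0, 0], ![0, 0, 0, 0], ![0, 0, 0, 0], ![0, 3, 2, 1], ![0, 2, 2, 1], ![0, 2, 1, 1], ![0, 2, 1, 0], ![-1, 2, 1, 0]],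
    ![![0, 0, 0, 0], ![0, -1, 1, 0], ![0, 0, 0, 0], ![0, 2, 2, 1], ![0, 0, 1, 0], ![1, 0, 1, 1], ![1, 0, 1, 0], ![-2, 0, 1, 2]],
    ![![0, -1, -1, 1], ![0, 0, 0, 0], ![1, 0, -1, 0], ![0, 2, 1, 1], ![1, 0, 1, 1], ![0, 0, 0, 1], ![2, 2, 2, 1], ![-1, 0, 0, 2]],
    ![![0, 0, 0, 0], ![0, 0, 1, -2], ![1, 0, 0, -1], ![0, 2, 1, 0], ![1, 0, 1, 0], ![2, 2, 2, 1], ![1, 1, 1, 0], ![-2, 3, 1, -3]],
    ![![-1, 0, -1, 0], ![-2, 1, 1, -1], ![-1, 2, -1, -2], ![-1, 2, 1, 0], ![-2, 0, 1, 2], ![-1, 0, 0, 2], ![-2, 3, 1, -3], ![-1, 1, 0, 0]]]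
def CA : Fin 8 → Fin 8 → Fin 8 → ℤ :=
  ![![![0, 0, 0, 0, 0, 0, 0, 0], ![0, 0, 0, 0, 0, 0, 0, 0], ![0, 0, 0, 0, 0, 0, 0, 0], ![-1, 0, 1, -4, 2, 0, 0, 2], ![-3, 4, 0, 0, -2, 1, 0, 0], ![0, 0, 0, 0, 0, 0, 0, 0], ![-1, 1, 1, 0, 0, 0, -1, 0], ![0, 0, 0, 0, 0, 0, 0, 0]],
    ![![0, 0, 0, 0, 0, 0, 0, 0], ![0, 0, 0, 0, 0, 0, 0, 0], ![1, -1, -1, 0, 0, 0, 1, 0], ![0, -1, 0, -4, 2, 0, 1, 2], ![0, 0, 0, 0, 0, 0, 0, 0], ![3, -4, 0, 0, 2, -1, 0, 0], ![0, 0, 0, 0, 0, 0, 0, 0], ![0, 0, 0, 0, 0, 0, 0, 0]],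
    ![![0, 0, 0, 0, 0, 0, 0, 0], ![1, -1, -1, 0, 0, 0, 1, 0], ![0, 0, 0, 0, 0, 0, 0, 0], ![0, 0, -3, -4, 0, 1, 4, 2], ![0, 1, -3, 0, -2, 1, 3, 0], ![0, 0, 0, 0, 0, 0, 0, 0], ![0, 0, 0, 0, 0, 0, 0, 0], ![0, 0, 0, 0, 0, 0, 0, 0]],
    ![![-1, 0, 1, -4, 2, 0, 0, 2], ![0, -1, 0, -4, 2, 0, 1, 2], ![0, 0, -3, -4, 0, 1, 4, 2], ![0, 0, 0, 0, 0, 0, 0, 0], ![0, 0, 0, 0, 0, 0, 0, 0], ![0, 0, 0, 0, 0, 0, 0, 0], ![0, 0, 0, 0, 0, 0, 0, 0], ![0, 0, 0, 0, 0, 0, 0, 0]],
    ![![-3, 4, 0, 0, -2, 1, 0, 0], ![0, 0, 0, 0, 0, 0, 0, 0], ![0, 1, -3, 0, -2, 1, 3, 0], ![0, 0, 0, 0, 0, 0, 0, 0], ![0, 0, 0, 0, 0, 0, 0, 0], ![0, 0, 0, 0, 0, 0, 0, 0], ![0, 0, 0, 0, 0, 0, 0, 0], ![0, 0, 0, 0, 0, 0, 0, 0]],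
    ![![0, 0, 0, 0, 0, 0, 0, 0], ![3, -4, 0, 0, 2, -1, 0, 0], ![0, 0, 0, 0, 0, 0, 0, 0], ![0, 0, 0, 0, 0, 0, 0, 0], ![0, 0, 0, 0, 0, 0, 0, 0], ![0, 0, 0, 0, 0, 0, 0, 0], ![0, 0, 0, 0, 0, 0, 0, 0], ![0, 0, 0, 0, 0, 0, 0, 0]],
    ![![-1, 1, 1, 0, 0, 0, -1, 0], ![0, 0, 0, 0, 0, 0, 0, 0], ![0, 0, 0, 0, 0, 0, 0, 0], ![0, 0, 0, 0, 0, 0, 0, 0], ![0, 0, 0, 0, 0, 0, 0, 0], ![0, 0, 0, 0, 0, 0, 0, 0], ![0, 0, 0, 0, 0, 0, 0, 0], ![0, 0, 0, 0, 0, 0, 0, 0]],
    ![![0, 0, 0, 0, 0, 0, 0, 0], ![0, 0, 0, 0, 0, 0, 0, 0], ![0, 0, 0, 0, 0, 0, 0, 0], ![0, 0, 0, 0, 0, 0, 0, 0], ![0, 0, 0, 0, 0, 0, 0, 0], ![0, 0, 0, 0, 0, 0, 0, 0], ![0, 0, 0, 0, 0, 0, 0, 0], ![0, 0, 0, 0, 0, 0, 0, 0]]]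
def VB : Fin 8 → Fin 4 → ℤ :=
  ![![-1, 0, 0, -1], ![0, 0, -1, 0], ![0, -1, 1, -1], ![0, 0, 0, 1], ![1, 0, -1, 1], ![0, 0, 1, 0], ![1, -1, 0, 0], ![-1, 0, 0, 1]]
def WB : Fin 8 → Fin 8 → Fin 4 → ℤ :=
  ![![![0, 1, 0, -1], ![0, 0, -1, -1], ![0, 0, 0, -1], ![0, 0, 0, 0], ![0, 0, 0, 0], ![0, 2, 1, -1], ![0, 0, 0, 0], ![-1, 0, 0, 0]],
    ![![0, 0, -1, -1], ![0, 0, -2, -1], ![0, 0, 0, 0], ![0, 0, 0, 0], ![0, 0, -1, 0], ![0, 0, 0, 0], ![0, -2, -2, -1], ![-2, 0, -3, 1]],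
    ![![0, 0, 0, -1], ![0, 0, 0, 0], ![0, 0, 1, -1], ![0, 0, 0, 0], ![0, 0, 0, 0], ![0, 0, 1, 0], ![0, -1, 0, 0], ![-1, -2, 1, 1]],
    ![![0, 0, 0, 0], ![0, 0, 0, 0], ![0, 0, 0, 0], ![1, 0, 2, 3], ![1, 0, 1, 2], ![1, 0, 2, 2], ![1, -2, 2, 3], ![0, 0, 1, 2]],
    ![![0, 0, 0, 0], ![0, 0, -1, 0], ![0, 0, 0, 0], ![1, 0, 1, 2], ![1, 1, 0, 0], ![2, 2, 1, 0], ![1, 0, 0, 0], ![-1, 0, -2, 2]],
    ![![0, 2, 1, -1], ![0, 0, 0, 0], ![0, 0, 1, 0], ![1, 0, 2, 2], ![2, 2, 1, 0], ![0, 1, 1, 0], ![2, 0, 2, 1], ![-1, 0, 2, 1]],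
    ![![0, 0, 0, 0], ![0, -2, -2, -1], ![0, -1, 0, 0], ![1, -2, 2, 3], ![1, 0, 0, 0], ![2, 0, 2, 1], ![1, -1, 0, 0], ![-1, -3, -1, 1]],
    ![![-1, 0, 0, 0], ![-2, 0, -3, 1], ![-1, -2, 1, 1], ![0, 0, 1, 2], ![-1, 0, -2, 2], ![-1, 0, 2, 1], ![-1, -3, -1, 1], ![-1, 0, 0, 1]]]
def CB : Fin 8 → Fin 8 → Fin 8 → ℤ :=
  ![![![0, 0, 0, 0, 0, 0, 0, 0], ![0, 0, 0, 0, 0, 0, 0, 0], ![0, 0, 0, 0, 0, 0, 0, 0], ![-1, 1, 0, -2, 0, 1, 0, 1], ![-2, 3, 0, 0, -2, 1, 0, 0], ![0, 0, 0, 0, 0, 0, 0, 0], ![-1, 1, 1, 0, 0, 0, -1, 0], ![0, 0, 0, 0, 0, 0, 0, 0]],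
    ![![0, 0, 0, 0, 0, 0, 0, 0], ![0, 0, 0, 0, 0, 0, 0, 0], ![1, -1, -1, 0, 0, 0, 1, 0], ![1, -2, 0, -2, 2, 0, 0, 1], ![0, 0, 0, 0, 0, 0, 0, 0], ![2, -3, 0, 0, 2, -1, 0, 0], ![0, 0, 0, 0, 0, 0, 0, 0], ![0, 0, 0, 0, 0, 0, 0, 0]],
    ![![0, 0, 0, 0, 0, 0, 0, 0], ![1, -1, -1, 0, 0, 0, 1, 0], ![0, 0, 0, 0, 0, 0, 0, 0], ![0, 0, -1, -2, 0, 1, 1, 1], ![0, 1, -2, 0, -2, 1, 2, 0], ![0, 0, 0, 0, 0, 0, 0, 0], ![0, 0, 0, 0, 0, 0, 0, 0], ![0, 0, 0, 0, 0, 0, 0, 0]],
    ![![-1, 1, 0, -2, 0, 1, 0, 1], ![1, -2, 0, -2, 2, 0, 0, 1], ![0, 0, -1, -2, 0, 1, 1, 1], ![0, 0, 0, 0, 0, 0, 0, 0], ![0, 0, 0, 0, 0, 0, 0, 0], ![0, 0, 0, 0, 0, 0, 0, 0], ![0, 0, 0, 0, 0, 0, 0, 0], ![0, 0, 0, 0, 0, 0, 0, 0]],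
    ![![-2, 3, 0, 0, -2, 1, 0, 0], ![0, 0, 0, 0, 0, 0, 0, 0], ![0, 1, -2, 0, -2, 1, 2, 0], ![0, 0, 0, 0, 0, 0, 0, 0], ![0, 0, 0, 0, 0, 0, 0, 0], ![0, 0, 0, 0, 0, 0, 0, 0], ![0, 0, 0, 0, 0, 0, 0, 0], ![0, 0, 0, 0, 0, 0, 0, 0]],
    ![![0, 0, 0, 0, 0, 0, 0, 0], ![2, -3, 0, 0, 2, -1, 0, 0], ![0, 0, 0, 0, 0, 0, 0, 0], ![0, 0, 0, 0, 0, 0, 0, 0], ![0, 0, 0, 0, 0, 0, 0, 0], ![0, 0, 0, 0, 0, 0, 0, 0], ![0, 0, 0, 0, 0, 0, 0, 0], ![0, 0, 0, 0, 0, 0, 0, 0]],
    ![![-1, 1, 1, 0, 0, 0, -1, 0], ![0, 0, 0, 0, 0, 0, 0, 0], ![0, 0, 0, 0, 0, 0, 0, 0], ![0, 0, 0, 0, 0, 0, 0, 0], ![0, 0, 0, 0, 0, 0, 0, 0], ![0, 0, 0, 0, 0, 0, 0, 0], ![0, 0, 0, 0, 0, 0, 0, 0], ![0, 0, 0, 0, 0, 0, 0, 0]],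
    ![![0, 0, 0, 0, 0, 0, 0, 0], ![0, 0, 0, 0, 0, 0, 0, 0], ![0, 0, 0, 0, 0, 0, 0, 0], ![0, 0, 0, 0, 0, 0, 0, 0], ![0, 0, 0, 0, 0, 0, 0, 0], ![0, 0, 0, 0, 0, 0, 0, 0], ![0, 0, 0, 0, 0, 0, 0, 0], ![0, 0, 0, 0, 0, 0, 0, 0]]]
def adj : Fin 8 → Fin 8 → Bool :=
  ![![false, true, true, false, false, true, false, true],
    ![true, false, false, false, true, false, true, true],
    ![true, false, false, false, false, true, true, true],
    ![false, false, false, false, true, true, true, true],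
    ![false, true, false, true, false, true, true, true],
    ![true, false, true, true, true, false, true, true],
    ![false, true, true, true, true, true, false, true],
    ![true, true, true, true, true, true, true, false]]

def DA : Fin 4 → Fin 8 → ℤ :=
  ![![1, -1, 0, 1, 0, 0, 0, -1],
    ![-1, 1, 0, 1, -1, 0, 0, 0],
    ![-1, 1, 0, 0, 0, 0, 0, 0],
    ![0, 0, -1, 0, 0, 1, 0, 0]]
def MA : Fin 4 → ℤ := ![1, 1, 1, 2]
def DB : Fin 4 → Fin 8 → ℤ :=
  ![![0, 0, 0, 1, 0, 0, 0, -1],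
    ![0, 0, 0, -1, 1, 1, -1, 0],
    ![0, -1, 0, 0, 0, 1, 0, 0],
    ![-1, 0, 0, 0, 0, 0, 0, 1]]
def MB : Fin 4 → ℤ := ![1, 1, 2, 2]

/-- The vertex sets of the faces. -/
def KK (V : Fin 8 → Fin 4 → ℤ) : Set (Set (Fin 8)) :=
  vset (pts V) '' faceComplex (poly (pts V))

/-- The vertex sets of the faces of dimension at most one. -/
def K1 : Set (Set (Fin 8)) :=
  {T | T = ∅ ∨ (∃ i, T = {i}) ∨ ∃ i j, adj i j = true ∧ T = {i, j}}

/-- `V` realizes the graph `adj`. -/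
structure Good (V : Fin 8 → Fin 4 → ℤ) : Prop where
  single : ∀ i, {i} ∈ KK V
  edge : ∀ i j, i ≠ j → (adj i j = true ↔ {i, j} ∈ KK V)
  span : vectorSpan ℝ (range (pts V)) = ⊤

theorem good_of_cert (V : Fin 8 → Fin 4 → ℤ) (W : Fin 8 → Fin 8 → Fin 4 → ℤ)
    (C : Fin 8 → Fin 8 → Fin 8 → ℤ) (D : Fin 4 → Fin 8 → ℤ) (M : Fin 4 → ℤ)
    (h1 : ∀ i j : Fin 8, (i = j ∨ adj i j = true) →
      dot (W i j) (V j) = dot (W i j) (V i) ∧
      ∀ k, k ≠ i → k ≠ j → dot (W i j) (V k) < dot (W i j) (V i))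
    (h2 : ∀ i j : Fin 8, i ≠ j → adj i j = false → ∑ k, C i j k = 0)
    (h3 : ∀ i j : Fin 8, i ≠ j → adj i j = false → ∀ q, ∑ k, C i j k * V k q = 0)
    (h4 : ∀ i j : Fin 8, i ≠ j → adj i j = false → ∀ k, k ≠ i → k ≠ j → 0 ≤ C i j k)
    (h5 : ∀ i j : Fin 8, i ≠ j → adj i j = false → ∃ k, (k ≠ i ∧ k ≠ j) ∧ 0 < C i j k)
    (hM : ∀ k, M k ≠ 0) (hD : ∀ k, ∑ i, D k i = 0)
    (hDV : ∀ k q, ∑ i, D k i * V i q = if q = k then M k else 0) : Good V where
  single i := by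
    have h := h1 i i (Or.inl rfl)
    have := mem_cert V (W i i) {i} i (by simp) (by
      intro k hk
      exact h.2 k (by simpa using hk) (by simpa using hk))
    simpa [KK] using this
  edge i j hij := by
    constructor
    · intro ha
      have h := h1 i j (Or.inr ha)
      have := mem_cert V (W i j) {i, j} i (by simp [h.1]) (by
        intro k hk
        simp only [Finset.mem_insert, Finset.mem_singleton, not_or] at hk
        exact h.2 k hk.1 hk.2)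
      simpa [KK] using this
    · intro hmem
      by_contra ha
      have ha' : adj i j = false := by simpa using ha
      obtain ⟨k, ⟨hki, hkj⟩, hk⟩ := h5 i j hij ha'
      have := not_mem_cert V (C i j) {i, j} i (by simp) (h2 i j hij ha') (h3 i j hij ha') (by
        intro k hk
        simp only [Finset.mem_insert, Finset.mem_singleton, not_or] at hk
        exact h4 i j hij ha' k hk.1 hk.2) k (by simp [hki, hkj]) hk
      apply this
      simpa [KK] using hmem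
  span := span_cert V D M hM hD hDV

theorem goodA : Good VA := by
  apply good_of_cert VA WA CA DA MA
  · decide +kernel
  · decide +kernel
  · decide +kernel
  · decide +kernel
  · decide +kernel
  · decide +kernel
  · decide +kernel
  · decide +kernel

theorem goodB : Good VB := by
  apply good_of_cert VB WB CB DB MB
  · decide +kernel
  · decide +kernel
  · decide +kernel
  · decide +kernel
  · decide +kernel
  · decide +kernel
  · decide +kernel
  · decide +kernel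

theorem tripleA : {4, 5, 7} ∈ KK VA := by
  have := mem_cert VA ![-2, 0, 1, 4] {4, 5, 7} 4 (by decide +kernel) (by decide +kernel)
  simpa [KK] using this

theorem tripleB : {4, 5, 7} ∉ KK VB := by
  have := not_mem_cert VB ![0, 1, 0, 4, -2, -1, 0, -2] {4, 5, 7} 4 (by decide +kernel)
    (by decide +kernel) (by decide +kernel) (by decide +kernel) 1 (by decide +kernel)
    (by decide +kernel)
  simpa [KK] using this

/-! ## The graph is rigid -/

def f0 (i : Fin 8) : ℕ := ∑ j, if adj i j = true then 1 else 0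
def f1 (i : Fin 8) : ℕ := ∑ j, if adj i j = true then f0 j ^ 2 else 0
def f2 (i : Fin 8) : ℕ := ∑ j, if adj i j = true then f1 j ^ 2 else 0

theorem f2_inj : ∀ i j : Fin 8, f2 i = f2 j → i = j := by decide +kernel

theorem rigid (σ : Equiv.Perm (Fin 8)) (h : ∀ i j, adj i j = true ↔ adj (σ i) (σ j) = true) :
    ∀ i, σ i = i := by
  have e0 : ∀ i, f0 (σ i) = f0 i := by
    intro i
    unfold f0
    rw [← Equiv.sum_comp σ]
    exact Finset.sum_congr rfl fun j _ => by simp only [← h i j]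
  have e1 : ∀ i, f1 (σ i) = f1 i := by
    intro i
    unfold f1
    rw [← Equiv.sum_comp σ]
    exact Finset.sum_congr rfl fun j _ => by simp only [← h i j, e0]
  have e2 : ∀ i, f2 (σ i) = f2 i := by
    intro i
    unfold f2
    rw [← Equiv.sum_comp σ]
    exact Finset.sum_congr rfl fun j _ => by simp only [← h i j, e1]
  intro i
  exact f2_inj _ _ (e2 i)

theorem adj_irrefl : ∀ i, adj i i = false := by decide

/-! ## The 1-skeleton -/

theorem vectorSpan_convexHull {n : ℕ} (S : Set (E n)) :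
    vectorSpan ℝ (convexHull ℝ S) = vectorSpan ℝ S := by
  rw [← direction_affineSpan, affineSpan_convexHull, direction_affineSpan]

theorem collinear_convexHull {n : ℕ} {S : Set (E n)} (h : Collinear ℝ S) :
    Collinear ℝ (convexHull ℝ S) := by
  rw [Collinear, vectorSpan_convexHull]; exact h

theorem dim_le_one_iff {n : ℕ} (F : Set (E n)) : dim F ≤ 1 ↔ Collinear ℝ F := by
  unfold dim
  split_ifs with h
  · subst h
    simp [collinear_empty]
  · rw [collinear_iff_finrank_le_one]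
    norm_cast

theorem empty_mem {n : ℕ} (P : Set (E n)) : ∅ ∈ faceComplex P := isExposed_empty

theorem empty_mem_KK (V : Fin 8 → Fin 4 → ℤ) : ∅ ∈ KK V :=
  ⟨∅, empty_mem _, rfl⟩

theorem pts_inj {V : Fin 8 → Fin 4 → ℤ} (hV : Good V) : Function.Injective (pts V) := by
  intro i j hij
  obtain ⟨F, _, hFi⟩ := hV.single i
  have hi : i ∈ vset (pts V) F := by rw [hFi]; rfl
  have hj : j ∈ vset (pts V) F := by
    change pts V j ∈ F
    rw [← hij]; exact hi
  rw [hFi] at hj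
  exact hj.symm

theorem not_wbtw {V : Fin 8 → Fin 4 → ℤ} (hV : Good V) {i j k : Fin 8} (hij : i ≠ j)
    (hkj : k ≠ j) : ¬ Wbtw ℝ (pts V i) (pts V j) (pts V k) := by
  intro hw
  obtain ⟨F, hF, hFj⟩ := hV.single j
  have hj : pts V j ∈ F := by
    have : j ∈ vset (pts V) F := by rw [hFj]; rfl
    exact this
  have hno : ∀ m, m ≠ j → pts V m ∉ F := by
    intro m hm hmF
    have : m ∈ vset (pts V) F := hmF
    rw [hFj] at this
    exact hm this
  have hmem : ∀ i, pts V i ∈ poly (pts V) := fun i => subset_convexHull ℝ _ ⟨i, rfl⟩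
  obtain ⟨l, hl⟩ := hF ⟨_, hj⟩
  have hjmax := hj
  rw [hl] at hjmax
  have hlt : ∀ m, m ≠ j → l (pts V m) < l (pts V j) := by
    intro m hm
    by_contra hcon
    push Not at hcon
    apply hno m hm
    rw [hl]
    exact ⟨hmem m, fun y hy => (hjmax.2 y hy).trans hcon⟩
  have hseg : pts V j ∈ segment ℝ (pts V i) (pts V k) := by
    rw [← affineSegment_eq_segment]; exact hw
  have hconv : Convex ℝ {x | l x < l (pts V j)} := convex_halfSpace_lt l.isLinear _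
  have : l (pts V j) < l (pts V j) := hconv.segment_subset (hlt i hij) (hlt k hkj) hseg
  exact lt_irrefl _ this

theorem K1_eq {V : Fin 8 → Fin 4 → ℤ} (hV : Good V) :
    vset (pts V) '' skel 1 (poly (pts V)) = K1 := by
  ext T
  constructor
  · rintro ⟨F, ⟨hF, hdim⟩, rfl⟩
    have hcol : Collinear ℝ F := (dim_le_one_iff F).1 (by exact_mod_cast hdim)
    rcases eq_empty_or_nonempty (vset (pts V) F) with h0 | ⟨i, hi⟩
    · exact Or.inl h0
    by_cases h1 : ∃ j ∈ vset (pts V) F, j ≠ i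
    · obtain ⟨j, hj, hji⟩ := h1
      have h2 : vset (pts V) F = {i, j} := by
        apply Subset.antisymm
        · intro k hk
          by_contra hk'
          simp only [mem_insert_iff, mem_singleton_iff, not_or] at hk'
          obtain ⟨hki, hkj⟩ := hk'
          have hc : Collinear ℝ ({pts V i, pts V j, pts V k} : Set (E 4)) := by
            apply hcol.subset
            intro x hx
            simp only [mem_insert_iff, mem_singleton_iff] at hx
            rcases hx with rfl | rfl | rfl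
            · exact hi
            · exact hj
            · exact hk
          rcases hc.wbtw_or_wbtw_or_wbtw with h | h | h
          · exact not_wbtw hV hji.symm hkj h
          · exact not_wbtw hV (Ne.symm hkj) (Ne.symm hki) h
          · exact not_wbtw hV hki hji h
        · intro k hk
          simp only [mem_insert_iff, mem_singleton_iff] at hk
          rcases hk with rfl | rfl
          · exact hi
          · exact hj
      refine Or.inr (Or.inr ⟨i, j, ?_, h2⟩)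
      rw [hV.edge i j hji.symm]
      exact ⟨F, hF, h2⟩
    · push Not at h1
      refine Or.inr (Or.inl ⟨i, ?_⟩)
      apply Subset.antisymm
      · intro j hj; exact h1 j hj
      · intro j hj
        rw [mem_singleton_iff] at hj
        rw [hj]; exact hi
  · intro hT
    have aux : ∀ T' : Set (Fin 8), T' ∈ KK V → Collinear ℝ (pts V '' T') →
        T' ∈ vset (pts V) '' skel 1 (poly (pts V)) := by
      rintro T' ⟨F, hF, rfl⟩ hcol
      refine ⟨F, ⟨hF, ?_⟩, rfl⟩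
      have h := (dim_le_one_iff F).2 (by
        rw [face_eq (pts V) hF]
        exact collinear_convexHull hcol)
      exact_mod_cast h
    rcases hT with rfl | ⟨i, rfl⟩ | ⟨i, j, hij, rfl⟩
    · exact aux ∅ (empty_mem_KK V) (by simp [collinear_empty])
    · exact aux {i} (hV.single i) (by simp [collinear_singleton])
    · have hne : i ≠ j := by
        rintro rfl
        rw [adj_irrefl] at hij
        exact absurd hij (by simp)
      refine aux {i, j} ((hV.edge i j hne).1 hij) ?_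
      rw [image_pair]
      exact collinear_pair ℝ _ _

theorem K1_subset : ∀ T ∈ K1, ∀ T' ⊆ T, T' ∈ K1 := by
  rintro T (rfl | ⟨i, rfl⟩ | ⟨i, j, hij, rfl⟩) T' hT'
  · exact Or.inl (subset_empty_iff.1 hT')
  · rcases subset_singleton_iff_eq.1 hT' with h | h
    · exact Or.inl h
    · exact Or.inr (Or.inl ⟨i, h⟩)
  · rcases subset_pair_iff_eq.1 hT' with h | h | h | h
    · exact Or.inl h
    · exact Or.inr (Or.inl ⟨i, h⟩)
    · exact Or.inr (Or.inl ⟨j, h⟩)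
    · exact Or.inr (Or.inr ⟨i, j, hij, h⟩)

theorem skel_sub {n : ℕ} (k : ℕ) (P : Set (E n)) : skel k P ⊆ faceComplex P := fun _ h => h.1

theorem isPolytope_face {V : Fin 8 → Fin 4 → ℤ} {F : Set (E 4)}
    (hF : F ∈ faceComplex (poly (pts V))) : IsPolytope F := by
  refine ⟨(toFinite (pts V '' vset (pts V) F)).toFinset, ?_⟩
  rw [Finite.coe_toFinset]
  exact face_eq (pts V) hF

theorem isComplex_skel {V : Fin 8 → Fin 4 → ℤ} (hV : Good V) :
    IsComplex (skel 1 (poly (pts V))) where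
  finite := by
    apply Set.Finite.of_finite_image (f := vset (pts V)) (toFinite _)
    exact (vset_injOn (pts V)).mono (skel_sub _ _)
  polytope F hF := isPolytope_face hF.1
  face_mem F hF G hG := by
    have hGF : G ⊆ F := IsExposed.subset hG
    have hFeq := face_eq (pts V) hF.1
    have hG' : IsExposed ℝ (convexHull ℝ (pts V '' vset (pts V) F)) G := by
      rw [← hFeq]; exact hG
    have hGeq := exposed_eq hG'
    have hset : pts V '' vset (pts V) F ∩ G = pts V '' vset (pts V) G := by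
      ext x
      constructor
      · rintro ⟨⟨i, _, rfl⟩, hx⟩; exact ⟨i, hx, rfl⟩
      · rintro ⟨i, hi, rfl⟩; exact ⟨⟨i, hGF hi, rfl⟩, hi⟩
    rw [hset] at hGeq
    have hFK : vset (pts V) F ∈ K1 := by
      rw [← K1_eq hV]; exact ⟨F, hF, rfl⟩
    have hGK : vset (pts V) G ∈ K1 := K1_subset _ hFK _ (fun i hi => hGF hi)
    rw [← K1_eq hV] at hGK
    obtain ⟨G', hG'', hGG'⟩ := hGK
    have : G' = G := by
      rw [face_eq (pts V) hG''.1, hGG', ← hGeq]
    rw [← this]; exact hG''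
  inter F hF G hG := by
    have h : IsExposed ℝ (poly (pts V)) (F ∩ G) := IsExposed.inter hF.1 hG.1
    exact ⟨h.mono (IsExposed.subset hF.1) inter_subset_left,
      h.mono (IsExposed.subset hG.1) inter_subset_right⟩

theorem isKComplex_skel {V : Fin 8 → Fin 4 → ℤ} (hV : Good V) :
    IsKComplex 1 (skel 1 (poly (pts V))) := by
  refine ⟨isComplex_skel hV, fun F hF => hF.2, ?_⟩
  have hK : ({0, 1} : Set (Fin 8)) ∈ K1 := Or.inr (Or.inr ⟨0, 1, by decide, rfl⟩)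
  rw [← K1_eq hV] at hK
  obtain ⟨F, hF, hF01⟩ := hK
  refine ⟨F, hF, le_antisymm hF.2 ?_⟩
  have h0 : pts V 0 ∈ F := by
    have : (0 : Fin 8) ∈ vset (pts V) F := by rw [hF01]; simp
    exact this
  have h1 : pts V 1 ∈ F := by
    have : (1 : Fin 8) ∈ vset (pts V) F := by rw [hF01]; simp
    exact this
  have hne : F ≠ ∅ := Set.Nonempty.ne_empty ⟨_, h0⟩
  unfold dim
  rw [if_neg hne]
  have hpos : 0 < Module.finrank ℝ (vectorSpan ℝ F) := by
    rw [Nat.pos_iff_ne_zero]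
    intro h
    have hbot : vectorSpan ℝ F = ⊥ := Submodule.finrank_eq_zero.1 h
    have hm : pts V 0 -ᵥ pts V 1 ∈ vectorSpan ℝ F := vsub_mem_vectorSpan ℝ h0 h1
    rw [hbot, Submodule.mem_bot, vsub_eq_zero_iff_eq] at hm
    have := pts_inj hV hm
    exact absurd this (by decide)
  push_cast
  exact_mod_cast hpos

theorem isDPolytope {V : Fin 8 → Fin 4 → ℤ} (hV : Good V) : IsDPolytope 4 (poly (pts V)) := by
  refine ⟨⟨(toFinite (range (pts V))).toFinset, by rw [Finite.coe_toFinset]; rfl⟩, ?_⟩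
  have hne : poly (pts V) ≠ ∅ :=
    Set.Nonempty.ne_empty ⟨pts V 0, subset_convexHull ℝ _ ⟨0, rfl⟩⟩
  unfold dim
  rw [if_neg hne, poly, vectorSpan_convexHull, hV.span, finrank_top, finrank_euclideanSpace_fin]

/-- An order isomorphism of face complexes induces a graph automorphism. -/
theorem perm_trivial {V V' : Fin 8 → Fin 4 → ℤ} (hV : Good V) (hV' : Good V')
    (Φ : KK V ≃o KK V') : ∀ T : KK V, (Φ T : Set (Fin 8)) = T := by
  obtain ⟨σ, hσ⟩ := exists_perm (empty_mem_KK V) (empty_mem_KK V') hV.single hV'.single Φ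
  have hadj : ∀ i j, adj i j = true ↔ adj (σ i) (σ j) = true := by
    intro i j
    by_cases hij : i = j
    · subst hij
      simp [adj_irrefl]
    have hij' : σ i ≠ σ j := fun h => hij (σ.injective h)
    rw [hV.edge i j hij, hV'.edge _ _ hij']
    constructor
    · intro h
      have h1 := hσ ⟨_, h⟩
      have h2 : σ '' ({i, j} : Set (Fin 8)) = {σ i, σ j} := image_pair _ _ _
      have h3 : (Φ ⟨_, h⟩ : Set (Fin 8)) ∈ KK V' := (Φ ⟨_, h⟩).2
      rw [h1] at h3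
      change σ '' ({i, j} : Set (Fin 8)) ∈ _ at h3
      rwa [h2] at h3
    · intro h
      have h1 := hσ (Φ.symm ⟨_, h⟩)
      rw [Φ.apply_symm_apply] at h1
      have h2 : σ '' ({i, j} : Set (Fin 8)) = {σ i, σ j} := image_pair _ _ _
      have h3 : σ '' ({i, j} : Set (Fin 8)) = σ '' (Φ.symm ⟨_, h⟩ : Set (Fin 8)) := by
        rw [h2]; exact h1
      have h4 := (image_eq_image σ.injective).1 h3
      rw [h4]
      exact (Φ.symm ⟨_, h⟩).2
  have hid := rigid σ hadj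
  intro T
  rw [hσ T]
  have : (σ : Fin 8 → Fin 8) = id := funext hid
  rw [this, image_id]

theorem perm_trivial_K1 (Φ : K1 ≃o K1) : ∀ T : K1, (Φ T : Set (Fin 8)) = T := by
  have h0 : (∅ : Set (Fin 8)) ∈ K1 := Or.inl rfl
  have h1 : ∀ i : Fin 8, ({i} : Set (Fin 8)) ∈ K1 := fun i => Or.inr (Or.inl ⟨i, rfl⟩)
  have hpair : ∀ i j : Fin 8, i ≠ j → (adj i j = true ↔ ({i, j} : Set (Fin 8)) ∈ K1) := by
    intro i j hij
    have hs := K1_eq goodA
    constructor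
    · intro h
      exact Or.inr (Or.inr ⟨i, j, h, rfl⟩)
    · intro h
      rw [← hs] at h
      obtain ⟨F, hF, hFe⟩ := h
      exact (goodA.edge i j hij).2 ⟨F, hF.1, hFe⟩
  obtain ⟨σ, hσ⟩ := exists_perm h0 h0 h1 h1 Φ
  have hadj : ∀ i j, adj i j = true ↔ adj (σ i) (σ j) = true := by
    intro i j
    by_cases hij : i = j
    · subst hij
      simp [adj_irrefl]
    have hij' : σ i ≠ σ j := fun h => hij (σ.injective h)
    rw [hpair i j hij, hpair _ _ hij']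
    have h2 : σ '' ({i, j} : Set (Fin 8)) = {σ i, σ j} := image_pair _ _ _
    constructor
    · intro h
      have h1 := hσ ⟨_, h⟩
      have h3 : (Φ ⟨_, h⟩ : Set (Fin 8)) ∈ K1 := (Φ ⟨_, h⟩).2
      rw [h1] at h3
      change σ '' ({i, j} : Set (Fin 8)) ∈ _ at h3
      rwa [h2] at h3
    · intro h
      have h1 := hσ (Φ.symm ⟨_, h⟩)
      rw [Φ.apply_symm_apply] at h1
      have h3 : σ '' ({i, j} : Set (Fin 8)) = σ '' (Φ.symm ⟨_, h⟩ : Set (Fin 8)) := by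
        rw [h2]; exact h1
      have h4 := (image_eq_image σ.injective).1 h3
      rw [h4]
      exact (Φ.symm ⟨_, h⟩).2
  have hid := rigid σ hadj
  intro T
  rw [hσ T]
  have : (σ : Fin 8 → Fin 8) = id := funext hid
  rw [this, image_id]

/-- The 1-skeleton is order isomorphic to the abstract graph. -/
noncomputable def skelIso {V : Fin 8 → Fin 4 → ℤ} (hV : Good V) :
    skel 1 (poly (pts V)) ≃o K1 :=
  (toSets (pts V) (skel 1 (poly (pts V))) (skel_sub _ _)).trans (OrderIso.setCongr _ _ (K1_eq hV))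

theorem skel_rigid {V : Fin 8 → Fin 4 → ℤ} (hV : Good V)
    (χ : skel 1 (poly (pts V)) ≃o skel 1 (poly (pts V))) : ∀ F, χ F = F := by
  intro F
  have h := perm_trivial_K1 (((skelIso hV).symm.trans χ).trans (skelIso hV)) (skelIso hV F)
  have h' := Subtype.ext h
  simp only [OrderIso.trans_apply, OrderIso.symm_apply_apply] at h'
  exact (skelIso hV).injective h'

theorem strongly : StronglyAmbiguous 1 4 (skel 1 (poly (pts VA))) := by
  refine ⟨4, 4, poly (pts VA), poly (pts VB), isDPolytope goodA, isDPolytope goodB, ?_,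
    ⟨OrderIso.refl _⟩, ⟨(skelIso goodA).trans (skelIso goodB).symm⟩,
    ⟨(skelIso goodA).trans (skelIso goodB).symm⟩⟩
  rintro ⟨Φ⟩
  let Ψ : KK VA ≃o KK VB :=
    ((toSets (pts VA) _ Subset.rfl).symm.trans Φ).trans (toSets (pts VB) _ Subset.rfl)
  have h := perm_trivial goodA goodB Ψ ⟨_, tripleA⟩
  have h2 : (Ψ ⟨_, tripleA⟩ : Set (Fin 8)) ∈ KK VB := (Ψ ⟨_, tripleA⟩).2
  rw [h] at h2
  exact tripleB h2

theorem not_weakly : ¬ WeaklyAmbiguous 1 4 (skel 1 (poly (pts VA))) := by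
  rintro ⟨m, Q, _, φ, ψ, hnot⟩
  apply hnot
  refine ⟨OrderIso.refl _, fun F => ?_⟩
  have h := skel_rigid goodA (φ.trans ψ.symm) (ψ.symm F)
  simp only [OrderIso.trans_apply] at h
  have h2 : φ (ψ.symm F) = F := ψ.symm.injective h
  rw [h2]
  rfl

end Pool.Agent.Lib.MP_745574_co
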